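import Pool.Agent.U167.SA.Stm

/-!
Project SA (helper167), package ASM: the swapping inequality in the infinite volume, from the
packages SWAP, KEY, QP and PPB.
-/

set_option autoImplicit false

namespace Pool.Agent.U363.SA

open H974 Finset Filter Topology
open Pool.Agent.U167.SA

theorem inB_mono {r r' : ℕ} (h : r ≤ r') {v : Vtx} (hv : inB r v) : inB r' v := by
  have h' : (r : ℤ) ≤ r' := by exact_mod_cast h
  obtain ⟨⟨h1, h2⟩, h3, h4⟩ := hv
  exact ⟨⟨by linarith, by linarith⟩, by linarith, by linarith⟩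

theorem Hit_mono {G : Set Edg} {A : Set Vtx} {n : ℤ} {F F' : Finset Edg} (h : F ⊆ F')
    (hF : Hit G A n F) : Hit G A n F' := by
  obtain ⟨u, hu, v, hv, hr⟩ := hF
  exact ⟨u, hu, v, hv, hr.mono (Set.inter_subset_inter_left _ (by exact_mod_cast h))⟩

/-- the scales -/
theorem scale_le {K m i : ℕ} (hm : 0 < m) (hi : i < K) : 80 * (64 ^ i * m) + 1 ≤ 100 * 64 ^ K * m := by
  have h1 : 64 ^ (i + 1) ≤ 64 ^ K := Nat.pow_le_pow_right (by norm_num) hi
  have h2 : 1 ≤ 64 ^ i := Nat.one_le_pow _ _ (by norm_num)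
  have h3 : 64 ^ (i + 1) * m ≤ 64 ^ K * m := Nat.mul_le_mul_right _ h1
  have h4 : 1 ≤ 64 ^ i * m := Nat.mul_pos (by positivity) hm
  have h5 : 64 ^ (i + 1) * m = 64 * (64 ^ i * m) := by ring
  have h6 : 100 * 64 ^ K * m = 100 * (64 ^ K * m) := by ring
  omega

theorem scale_step {m i j : ℕ} (hij : i < j) : 64 * (64 ^ i * m) ≤ 64 ^ j * m := by
  have h1 : 64 ^ (i + 1) ≤ 64 ^ j := Nat.pow_le_pow_right (by norm_num) hij
  have h3 : 64 ^ (i + 1) * m ≤ 64 ^ j * m := Nat.mul_le_mul_right _ h1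
  have h5 : 64 ^ (i + 1) * m = 64 * (64 ^ i * m) := by ring
  omega

theorem one_le_scale {m i : ℕ} (hm : 0 < m) : m ≤ 64 ^ i * m :=
  Nat.le_mul_of_pos_left _ (by positivity)

theorem t_ASM (h1 : SwapStm) (h2 : KeyStm) (h3 : QPStm) (h4 : PPBStm) : SWStm := by
  obtain ⟨δ, hδ0, hδ1, hQ⟩ := h3
  obtain ⟨-, -, hlim, -⟩ := h4
  have hδ4 : 0 < δ ^ 4 := by positivity
  have hδ4' : δ ^ 4 ≤ 1 := pow_le_one₀ hδ0.le hδ1
  refine ⟨1 - δ ^ 4, by linarith, by linarith, ?_⟩
  intro K m R a b G11 G12 G21 G22 A1 A2 n1 n2 hm ha hb hA1 hA2 hR hin hout hD hn1 hn2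
  have hfin : ∀ M : ℕ, R ≤ M → PM G11 A1 n1 M * PM G22 A2 n2 M ≤
      PM G12 A1 n2 M * PM G21 A2 n1 M + (1 - δ ^ 4) ^ K * (PM G11 A1 n1 M * PM G22 A2 n2 M) := by
    intro M hM
    have hsR : ∀ i < K, 80 * (64 ^ i * m) + 1 ≤ R := fun i hi => (scale_le hm hi).trans hR
    refine h1 (fun _ => (1/2 : ℝ)) (fun _ => by norm_num) (boxE M) K
      (fun i => boxE (16 * (64 ^ i * m))) (fun i => Rg (64 ^ i * m)) (fun i => Q (64 ^ i * m))
      (Hit G11 A1 n1) (Hit G12 A1 n2) (Hit G21 A2 n1) (Hit G22 A2 n2) δ hδ0.le ?_ ?_ ?_ ?_ ?_ ?_ ?_ ?_ ?_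
    · intro i j hij _
      have := scale_step (m := m) hij
      have h1' := one_le_scale (m := m) (i := i) hm
      exact sdiff_subset.trans (boxE_mono (by omega))
    · intro i j hij _
      have := scale_step (m := m) hij
      have h1' := one_le_scale (m := m) (i := i) hm
      refine (disjoint_sdiff (s := boxE (2 * (64 ^ j * m) - 1)) (t := boxE (80 * (64 ^ j * m) + 1))).mono_left ?_
      exact sdiff_subset.trans (boxE_mono (by omega))
    · intro i hi
      exact sdiff_subset.trans (boxE_mono ((hsR i hi).trans hM))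
    · intro i _ F
      exact (hQ _ (Nat.mul_pos (by positivity) hm)).1 F
    · intro i _ F G
      exact (hQ _ (Nat.mul_pos (by positivity) hm)).2.1 F G
    · intro i hi
      exact (hQ _ (Nat.mul_pos (by positivity) hm)).2.2 _ (boxE_mono ((hsR i hi).trans hM))
    · exact fun F G h hF => Hit_mono h hF
    · exact fun F G h hF => Hit_mono h hF
    · intro i hi F F' _ _ _ _ hmix1 hmix2 hX1 hX2
      have hs := one_le_scale (m := m) (i := i) hm
      have hsi := hsR i hi
      obtain ⟨s, hs'⟩ : ∃ s, s = 64 ^ i * m := ⟨_, rfl⟩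
      simp only [← hs'] at hs hsi hmix1 hmix2 ⊢
      have hs0 : 0 < s := by omega
      have hmz : (m : ℤ) ≤ s := by exact_mod_cast hs
      have hRz : (80 * s + 1 : ℤ) ≤ R := by exact_mod_cast hsi
      have e1 : boxE (16 * s) ⊆ boxE R := boxE_mono (by omega)
      have e2 : boxE m ⊆ boxE (16 * s) := boxE_mono (by omega)
      have e3 : boxE (80 * s + 1) ⊆ boxE R := boxE_mono hsi
      have e4 : boxE m ⊆ boxE (2 * s - 1) := boxE_mono (by omega)
      have e5 : ∀ v ∈ A1, inB (2 * s) v := fun v hv => inB_mono (by omega) (hA1 v hv)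
      have e6 : ∀ v ∈ A2, inB (2 * s) v := fun v hv => inB_mono (by omega) (hA2 v hv)
      constructor
      · refine h2 s a b hs0 (ha.trans hmz) (hb.trans hmz) G11 G22 G12 ?_ ?_ ?_ A1 A2 e5 e6 n1 n2
          (by linarith) (by linarith) F F' hmix1 hX1 hX2
        · exact fun e he => (hin e (e1 he)).1
        · exact fun e he => (hout e (fun h => he (e2 h))).2.symm
        · intro e he he'
          rw [← (hin e (e3 he)).1]
          exact hD e (e3 he) (fun h => he' (e4 h))
      · refine h2 s a b hs0 (ha.trans hmz) (hb.trans hmz) G22 G11 G21 ?_ ?_ ?_ A2 A1 e6 e5 n2 n1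
          (by linarith) (by linarith) F' F hmix2 hX2 hX1
        · exact fun e he => (hin e (e1 he)).2.symm
        · exact fun e he => (hout e (fun h => he (e2 h))).1
        · intro e he he'
          rw [← (hout e (fun h => he' (e4 h))).1]
          exact hD e (e3 he) (fun h => he' (e4 h))
  refine le_of_tendsto_of_tendsto ((hlim G11 A1 n1).mul (hlim G22 A2 n2))
    (((hlim G12 A1 n2).mul (hlim G21 A2 n1)).add
      (((hlim G11 A1 n1).mul (hlim G22 A2 n2)).const_mul _)) ?_
  filter_upwards [eventually_ge_atTop R] with M hM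
  exact hfin M hM

end Pool.Agent.U363.SA
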